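import Pool.Agent.N794.CG.Multi

/-!
# Vectors whose coordinates are members of thin families of different kinds
-/

set_option autoImplicit false

namespace Pool.Agent.J6H92.Thin

open Finset Filter
open Pool.Agent.N794.CG
open Pool.Agent.R459.Eq (pri mem_pri)

/-- The kinds of the families: the members below `N` of the set recognised by an automaton which reads the digits in base `b`;
families of residues with small Fourier coefficients; the integer parts of the values of a function. -/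
inductive Kind : Type 1
  | automatic (b : ℕ) (σ : Type) (inst : Fintype σ) (M : DFA ℕ σ)
  | residues
  | values (f : ℝ → ℝ)

open Classical in
/-- the numbers below `N` whose word of digits in base `b` (least significant digit first) is accepted by `M` -/
noncomputable def members {σ : Type} (b : ℕ) (M : DFA ℕ σ) (N : ℕ) : Finset ℕ :=
  (range N).filter (fun v => Nat.digits b v ∈ M.accepts)

/-- the kinds which are admitted -/
def Kind.Adm : Kind → Prop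
  | .automatic b _ _ M => 2 ≤ b ∧ ∀ k : ℕ, ∃ᶠ N : ℕ in atTop, Real.log N ^ k < ((members b M N).card : ℝ)
  | .residues => True
  | .values f => ∃ c : ℝ, 0 < c ∧ (∀ m : ℕ, c ≠ m) ∧ Pool.Agent.N193.PS.SmoothlyVarying c f

/-- A finite family of natural numbers `v n`, `n ∈ Ω`, with a size `Z`. -/
structure Family where
  Ω : Finset ℕ
  v : ℕ → ℕ
  Z : ℝ

/-- The family `G` is of the kind `K`. -/
def Kind.Has : Kind → Family → Prop
  | .automatic b _ _ M, G => ∃ N : ℕ, G.Ω = members b M N ∧ G.v = (fun n => n) ∧ G.Z = N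
  | .residues, G => ∃ (q : ℕ) (_ : NeZero q) (y : ℕ → ZMod q), 0 < G.Z ∧ G.Z ≤ q ∧
      Pool.Agent.N384.MQ.Flat q (1 / (G.Z * (42 + 3 * Real.log q))) G.Ω y ∧ G.v = (fun n => (y n).val)
  | .values f, G => ∃ M : ℕ, G.Ω = Icc 1 M ∧ G.v = (fun n : ℕ => ⌊f n⌋₊) ∧ G.Z = f M

lemma mem_eq {σ : Type} (b : ℕ) (M : DFA ℕ σ) (N : ℕ) : members b M N = mem b M N := by
  unfold members mem
  congr!

/-- the one-dimensional statement for all kinds -/
theorem fine_of_kind (δ : ℝ) (hδ : 0 < δ) (hδ1 : δ ≤ 1) (K : Kind) (hK : K.Adm) : ∃ W e : ℕ, 1 ≤ W ∧ ∀ κ : ℤ, κ ≠ 0 →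
    ∃ X₀ : ℕ, ∀ X : ℕ, X₀ ≤ X → ∀ G : Family, K.Has G → ∀ c : ℤ,
      FineAt (δ / 2) X (fun x => (x : ℝ) ^ W ≤ G.Z) ((1 + |Real.log G.Z|) ^ e * (2 * (X : ℝ) ^ (-(δ / 2 / 2)))) G.Ω
        (fun _ => 1 / (G.Ω.card : ℝ)) (fun n => c + κ * ((G.v n : ℕ) : ℤ)) := by
  have heng := eng_fine (δ / 2) (by linarith) (by linarith)
  match K, hK with
  | .automatic b σ inst M, hK =>
    obtain ⟨hb, hS⟩ := hK
    obtain ⟨W, e, hW, H⟩ := eng_aut (fun X => by positivity) heng b hb M (fun k => (hS k).mono fun N hN => by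
      rw [← mem_eq]
      exact hN)
    refine ⟨W, e, hW, fun κ hκ => ?_⟩
    obtain ⟨X₀, J⟩ := H κ hκ
    refine ⟨X₀, fun X hX G hG c s => ?_⟩
    obtain ⟨N, h1, h2, h3⟩ := hG
    have h4 := J X hX N c s
    rw [h1, h2, h3, mem_eq]
    refine (h4.mono fun n hn x hXx hx => hn x hXx ?_).le ?_
    · exact_mod_cast hx
    · apply mul_le_mul_of_nonneg_right _ (by positivity)
      have h5 : 0 ≤ Real.log N := Real.log_natCast_nonneg N
      apply pow_le_pow_left₀ h5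
      rw [abs_of_nonneg h5]
      linarith
  | .residues, _ =>
    obtain ⟨W, hW, H⟩ := eng_res (fun X => by positivity) heng
    refine ⟨W, 0, hW, fun κ hκ => ?_⟩
    obtain ⟨X₀, J⟩ := H κ hκ
    refine ⟨X₀, fun X hX G hG c s => ?_⟩
    obtain ⟨q, hq, y, h0, h1, h2, h3⟩ := hG
    have h4 := J X hX ℕ q G.Ω y G.Z h0 h1 h2 c s
    rw [h3, pow_zero, one_mul]
    exact h4
  | .values f, hK =>
    obtain ⟨c, hc, hn, hf⟩ := hK
    obtain ⟨W, hW, H⟩ := eng_sv (fun X => by positivity) heng c f hc hn hf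
    refine ⟨W, 0, hW, fun κ hκ => ?_⟩
    obtain ⟨X₀, J⟩ := H κ hκ
    refine ⟨X₀, fun X hX G hG c₀ s => ?_⟩
    obtain ⟨M, h1, h2, h3⟩ := hG
    have h4 := J X hX M c₀ s
    have hcard : (Icc 1 M).card = M := by rw [Nat.card_Icc]; omega
    rw [h1, h2, h3, pow_zero, one_mul, hcard]
    exact h4

open Classical in
/-- **vectors whose coordinates are members of families of the three kinds** -/
theorem multi_kinds {D : ℕ} {Θ : Type} {Q : Finset Θ} {F : Θ → ℕ → (Fin D → ℤ) → ℝ} {M : Θ → ℕ → ℝ}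
    (hF : Data Q F M) (δ : ℝ) (hδ : 0 < δ) (hδ1 : δ ≤ 1) (K : Fin D → Kind) (hK : ∀ l, (K l).Adm) : ∃ W e : ℕ, 1 ≤ W ∧
    ∀ κ : Fin D → ℤ, (∀ l, κ l ≠ 0) → ∃ X₀ : ℕ, ∀ X : ℕ, X₀ ≤ X → ∀ (G : Fin D → Family), (∀ l, (K l).Has (G l)) →
    ∀ (c : Fin D → ℤ) (T : ℕ → Set ℕ), (∀ p j j', p ∈ T j → p ∈ T j' → j = j') →
    (((Fintype.piFinset (fun l => (G l).Ω)).filter (fun n => ¬ ∀ x : ℕ, X ≤ x → (∀ l, (x : ℝ) ^ W ≤ (G l).Z) →
      GoodQ δ T Q F M x (fun l => c l + κ l * (((G l).v (n l) : ℕ) : ℤ)))).card : ℝ) ≤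
      ((∑ l, (1 + |Real.log (G l).Z|) ^ e) * (X : ℝ) ^ (-(δ / 8))) * ∏ l, (((G l).Ω).card : ℝ) := by
  choose W₁ e₁ hW₁ H₁ using fun l => fine_of_kind δ hδ hδ1 (K l) (hK l)
  obtain ⟨X₁, J₁⟩ := multi_all D Q F M hF.per hF.bd hF.mean δ hδ
  obtain ⟨X₂, hX₂, J₂⟩ := absorb Q.card δ hδ
  refine ⟨1 + ∑ l, W₁ l, ∑ l, e₁ l, by omega, fun κ hκ => ?_⟩
  choose X₃ J₃ using fun l => H₁ l (κ l) (hκ l)
  refine ⟨X₁ + X₂ + ∑ l, X₃ l, fun X hX G hG c T hT => ?_⟩
  have hX3 : ∀ l, X₃ l ≤ X := fun l => by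
    have := single_le_sum (f := X₃) (fun l _ => Nat.zero_le _) (mem_univ l)
    omega
  have hXr : (1 : ℝ) ≤ X := by exact_mod_cast (by omega : 1 ≤ X)
  obtain ⟨τ, hτ⟩ : ∃ τ : Fin D → ℝ, τ = fun l => (1 + |Real.log (G l).Z|) ^ (∑ l, e₁ l) * (2 * (X : ℝ) ^ (-(δ / 2 / 2))) :=
    ⟨_, rfl⟩
  have hτ0 : ∀ l, 0 ≤ τ l := fun l => by
    rw [hτ]
    positivity
  have hfine : ∀ l, FineAt (δ / 2) X (fun x => ∀ l, (x : ℝ) ^ (1 + ∑ l, W₁ l) ≤ (G l).Z) (τ l) (G l).Ω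
      (fun _ => 1 / (((G l).Ω).card : ℝ)) (fun n => c l + κ l * (((G l).v n : ℕ) : ℤ)) := by
    intro l s
    refine ((J₃ l X (hX3 l) (G l) (hG l) (c l) s).mono fun n hn x hXx hx => hn x hXx ?_).le ?_
    · refine le_trans (pow_le_pow_right₀ ?_ ?_) (hx l)
      · exact_mod_cast (by omega : 1 ≤ x)
      · have := single_le_sum (f := W₁) (fun l _ => Nat.zero_le _) (mem_univ l)
        omega
    · rw [hτ]
      apply mul_le_mul_of_nonneg_right _ (by positivity)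
      exact pow_le_pow_right₀ (by linarith [abs_nonneg (Real.log (G l).Z)])
        (single_le_sum (f := e₁) (fun l _ => Nat.zero_le _) (mem_univ l))
  have h2 := J₁ X (by omega) (fun x => ∀ l, (x : ℝ) ^ (1 + ∑ l, W₁ l) ≤ (G l).Z) T hT (fun _ => ℕ) (fun l => (G l).Ω)
    (fun l _ => 1 / (((G l).Ω).card : ℝ)) (fun l n => c l + κ l * (((G l).v n : ℕ) : ℤ)) τ hτ0
    (fun l i _ => by positivity) (fun l => by
      rw [sum_const, nsmul_eq_mul, mul_one_div]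
      exact div_self_le_one _) hfine
    ((Fintype.piFinset (fun l => (G l).Ω)).filter (fun n => ¬ ∀ x : ℕ, X ≤ x → (∀ l, (x : ℝ) ^ (1 + ∑ l, W₁ l) ≤ (G l).Z) →
      GoodQ δ T Q F M x (fun l => c l + κ l * (((G l).v (n l) : ℕ) : ℤ)))) (filter_subset _ _)
    fun i hi => badQ_of (mem_filter.1 hi).2
  refine count_of (fun l => (G l).Ω) _ (filter_subset _ _) _ (mul_nonneg (sum_nonneg fun l _ => by
    positivity) (by positivity)) (h2.trans ?_)
  rw [hτ, ← sum_mul]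
  calc (Q.card : ℝ) * ((∑ l, (1 + |Real.log (G l).Z|) ^ (∑ l, e₁ l)) * (2 * (X : ℝ) ^ (-(δ / 2 / 2)))) =
        (∑ l, (1 + |Real.log (G l).Z|) ^ (∑ l, e₁ l)) * (Q.card * (2 * (X : ℝ) ^ (-(δ / 2 / 2)))) := by ring
    _ ≤ _ := mul_le_mul_of_nonneg_left (J₂ X (by omega)) (sum_nonneg fun l _ => by
        positivity)

end Pool.Agent.J6H92.Thin
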