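import Pool.Agent.Y57.FD.Tup0
import Pool.Agent.V11210.G2.Mean
import Pool.Agent.J6H92.Thin.Kinds

/-!
# The coefficients of the Euler factors of curves of genus two as functions of integral coefficients
-/

set_option autoImplicit false

namespace Pool.Agent.J6H92.Thin

open Finset

/-- The number of the solutions of `Y ^ 2 = X ^ 5 + m 4 X ^ 4 + ... + m 1 X + m 0` in the field with `p` elements. -/
noncomputable def points₁ (p : ℕ) (m : Fin 5 → ℤ) : ℕ :=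
  Nat.card {P : ZMod p × ZMod p // P.2 ^ 2 = P.1 ^ 5 + ∑ i, (m i : ZMod p) * P.1 ^ (i : ℕ)}

open Classical in
/-- The number of the solutions of `Y ^ 2 = X ^ 5 + m 4 X ^ 4 + ... + m 1 X + m 0` in the field with `p ^ 2` elements. -/
noncomputable def points₂ (p : ℕ) (m : Fin 5 → ℤ) : ℕ :=
  if h : p.Prime then
    haveI : Fact p.Prime := ⟨h⟩
    Nat.card {P : GaloisField p 2 × GaloisField p 2 // P.2 ^ 2 = P.1 ^ 5 + ∑ i, (m i : GaloisField p 2) * P.1 ^ (i : ℕ)}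
  else 0

/-- `p` is odd and `X ^ 5 + m 4 X ^ 4 + ... + m 0` is separable modulo `p`, so that the curve of genus `2` with this equation is
smooth modulo `p`. -/
def Smooth (p : ℕ) (m : Fin 5 → ℤ) : Prop :=
  p ≠ 2 ∧ (Polynomial.X ^ 5 + ∑ i, Polynomial.C (m i : ZMod p) * Polynomial.X ^ (i : ℕ)).Separable

open Classical in
/-- the coefficient `a_1` -/
noncomputable def a₁ (p : ℕ) (m : Fin 5 → ℤ) : ℝ :=
  if Smooth p m then (((points₁ p m : ℝ) + 1) - ((p : ℝ) + 1)) / Real.sqrt p else 0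

open Classical in
/-- the coefficient `a_2` -/
noncomputable def a₂ (p : ℕ) (m : Fin 5 → ℤ) : ℝ :=
  if Smooth p m then
    ((((points₁ p m : ℝ) + 1) - ((p : ℝ) + 1)) ^ 2 + (((points₂ p m : ℝ) + 1) - ((p : ℝ) ^ 2 + 1))) / (2 * p)
  else 0

/-- the moments of `USp(4)` -/
def moment : ℕ → ℕ → ℝ
  | 0, 0 => 1
  | 2, 0 => 1
  | 4, 0 => 3
  | 6, 0 => 14
  | 0, 1 => 1
  | 2, 1 => 2
  | 0, 2 => 2
  | _, _ => 0

/-- the reduction modulo `p` -/
def red (p : ℕ) (m : Fin 5 → ℤ) : Fin 5 → ℕ := fun i => (m i % p).toNat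

lemma red_int (p : ℕ) (hp : p.Prime) (m : Fin 5 → ℤ) (i : Fin 5) : ((red p m i : ℕ) : ℤ) = m i % p := by
  unfold red
  have hp0 : (0 : ℤ) < p := by exact_mod_cast hp.pos
  rw [Int.toNat_of_nonneg (Int.emod_nonneg _ hp0.ne')]

lemma red_zmod (p : ℕ) (hp : p.Prime) (m : Fin 5 → ℤ) (i : Fin 5) : ((red p m i : ℕ) : ZMod p) = (m i : ZMod p) := by
  have h1 : (((red p m i : ℕ) : ℤ) : ZMod p) = (m i : ZMod p) := by
    rw [red_int p hp m i, ZMod.intCast_mod]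
  rwa [Int.cast_natCast] at h1

lemma red_gal (p : ℕ) [hp : Fact p.Prime] (m : Fin 5 → ℤ) (i : Fin 5) :
    ((red p m i : ℕ) : GaloisField p 2) = (m i : GaloisField p 2) := by
  have h1 := congrArg (algebraMap (ZMod p) (GaloisField p 2)) (red_zmod p hp.out m i)
  rwa [map_natCast, map_intCast] at h1

lemma red_congr (p : ℕ) (m m' : Fin 5 → ℤ) (h : ∀ l, (p : ℤ) ∣ m l - m' l) : red p m = red p m' := by
  funext i
  unfold red
  rw [Int.emod_emod_of_dvd _ (dvd_refl _) |>.symm, (Int.emod_emod_of_dvd (m' i) (dvd_refl (p : ℤ))).symm]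
  have : m i % p = m' i % p := Int.ModEq.symm ((Int.modEq_iff_dvd).2 (by
    have := h i
    exact this))
  rw [this]

lemma cond_eq (i j : ℕ) (h : i + 2 * j ≤ 5 ∨ (i ≤ 7 ∧ j = 0)) :
    (j = 0 ∧ i ≤ 2 * 2 + 3) ∨ (j = 1 ∧ i + 2 ≤ 2 * 2 + 1) ∨ (j = 2 ∧ i + 4 ≤ 2 * 2 + 1) := by
  omega

lemma moment_eq (i j : ℕ) (h : i + 2 * j ≤ 5 ∨ (i ≤ 7 ∧ j = 0)) : moment i j = Pool.Agent.V11210.G2.mm 2 i j := by
  have hj : j ≤ 2 := by omega
  have hi : i ≤ 7 := by omega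
  unfold Pool.Agent.V11210.G2.mm Pool.Agent.Y57.FD.Mom.usp Pool.Agent.Y57.FD.Mom.normal
  interval_cases j <;> interval_cases i <;> first
    | omega
    | (simp [moment, Nat.doubleFactorial, Nat.even_iff]; done)
    | (simp [moment, Nat.doubleFactorial, Nat.even_iff]; norm_num)

lemma card_affine {F : Type} [Field F] [Fintype F] [DecidableEq F] (hF : ringChar F ≠ 2) (f : F → F) :
    (Nat.card {P : F × F // P.2 ^ 2 = f P.1} : ℝ) = (Fintype.card F : ℝ) + ∑ x : F, (quadraticChar F (f x) : ℝ) := by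
  classical
  have h1 : Nat.card {P : F × F // P.2 ^ 2 = f P.1} = ∑ x : F, Nat.card {y : F // y ^ 2 = f x} := by
    rw [← Nat.card_sigma]
    refine Nat.card_congr ⟨fun P => ⟨P.1.1, ⟨P.1.2, P.2⟩⟩, fun P => ⟨(P.1, P.2.1), P.2.2⟩, fun _ => rfl, fun _ => rfl⟩
  have h2 : ∀ x : F, ((Nat.card {y : F // y ^ 2 = f x} : ℕ) : ℤ) = quadraticChar F (f x) + 1 := by
    intro x
    rw [← quadraticChar_card_sqrts hF (f x)]
    congr 1
    rw [Nat.card_eq_fintype_card, Fintype.card_subtype]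
    congr 1
    ext y
    simp
  rw [h1]
  push_cast
  have h3 : ∀ x : F, ((Nat.card {y : F // y ^ 2 = f x} : ℕ) : ℝ) = (quadraticChar F (f x) : ℝ) + 1 := by
    intro x
    have := h2 x
    exact_mod_cast this
  rw [sum_congr rfl (fun x _ => h3 x), sum_add_distrib, sum_const, card_univ, nsmul_eq_mul, mul_one]
  ring

lemma pol_eq (p : ℕ) [hp : Fact p.Prime] (m : Fin 5 → ℤ) :
    (Pool.Agent.Y57.FD.HM.pol p (D := 2 * 2 + 1) (fun i => ((red p m i : ℕ) : ZMod p))) =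
    Polynomial.X ^ 5 + ∑ i, Polynomial.C (m i : ZMod p) * Polynomial.X ^ (i : ℕ) := by
  have e : (fun i => ((red p m i : ℕ) : ZMod p)) = fun i => (m i : ZMod p) := funext fun i => red_zmod p hp.out m i
  rw [e]
  rfl

lemma points₁_eq (p : ℕ) [hp : Fact p.Prime] (h2 : p ≠ 2) (m : Fin 5 → ℤ) :
    (points₁ p m : ℝ) = (p : ℝ) + ∑ x : ZMod p, (quadraticChar (ZMod p)
      (Pool.Agent.Y57.FD.Mom.val (ZMod p) (2 * 2 + 1) (fun i => ((red p m i : ℕ) : ZMod p)) x) : ℝ) := by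
  unfold points₁
  rw [card_affine (Pool.Agent.V11210.G2.ringChar_zmod p h2) (fun x => x ^ 5 + ∑ i, (m i : ZMod p) * x ^ (i : ℕ)), ZMod.card]
  have e : (fun i => ((red p m i : ℕ) : ZMod p)) = fun i => (m i : ZMod p) := funext fun i => red_zmod p hp.out m i
  rw [e]
  rfl

lemma points₂_eq (p : ℕ) [hp : Fact p.Prime] (h2 : p ≠ 2) (m : Fin 5 → ℤ) :
    (points₂ p m : ℝ) = (p : ℝ) ^ 2 + Pool.Agent.V11210.G2.SG p (D := 2 * 2 + 1) (fun i => ((red p m i : ℕ) : ZMod p)) := by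
  classical
  letI : Fintype (GaloisField p 2) := Fintype.ofFinite _
  unfold points₂
  rw [dif_pos hp.out, card_affine (Pool.Agent.V11210.G2.charL (ZMod p) (GaloisField p 2) (Pool.Agent.V11210.G2.ringChar_zmod p h2))
    (fun x : GaloisField p 2 => x ^ 5 + ∑ i, (m i : GaloisField p 2) * x ^ (i : ℕ)), ← Nat.card_eq_fintype_card,
    GaloisField.card p 2 (by norm_num)]
  push_cast
  have e : (fun x : GaloisField p 2 => x ^ 5 + ∑ i, (m i : GaloisField p 2) * x ^ (i : ℕ)) =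
      fun x : GaloisField p 2 => x ^ 5 + ∑ i, ((red p m i : ℕ) : GaloisField p 2) * x ^ (i : ℕ) := by
    funext x
    congr 1
    exact sum_congr rfl fun i _ => by rw [red_gal p m i]
  congr 1
  have e2 : ∀ x : GaloisField p 2, x ^ 5 + ∑ i, (m i : GaloisField p 2) * x ^ (i : ℕ) =
      x ^ 5 + ∑ i, ((red p m i : ℕ) : GaloisField p 2) * x ^ (i : ℕ) := fun x => congrFun e x
  simp only [e2]
  rfl

lemma a₁_eq (p : ℕ) (hp : p.Prime) (m : Fin 5 → ℤ) : a₁ p m = Pool.Agent.Y57.FD.HM.tr 2 p (red p m) := by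
  classical
  haveI : Fact p.Prime := ⟨hp⟩
  unfold a₁ Pool.Agent.Y57.FD.HM.tr
  by_cases h2 : p = 2
  · rw [if_neg (fun h => h.1 h2), dif_neg (fun h => h.2 h2)]
  · rw [dif_pos ⟨hp, h2⟩]
    by_cases h3 : (Pool.Agent.Y57.FD.HM.pol p (D := 2 * 2 + 1) (fun i => ((red p m i : ℕ) : ZMod p))).Separable
    · have h4 : Smooth p m := ⟨h2, by rw [pol_eq] at h3; exact h3⟩
      rw [if_pos h4, if_pos h3, points₁_eq p h2, ZMod.card]
      congr 1
      ring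
    · have h4 : ¬ Smooth p m := fun h => h3 (by rw [pol_eq]; exact h.2)
      rw [if_neg h4, if_neg h3]

lemma a₂_eq (p : ℕ) (hp : p.Prime) (m : Fin 5 → ℤ) : a₂ p m = Pool.Agent.V11210.G2.A2 2 p (red p m) := by
  classical
  haveI : Fact p.Prime := ⟨hp⟩
  have hp0 : (0 : ℝ) < p := by exact_mod_cast hp.pos
  have e1 := a₁_eq p hp m
  unfold a₂ Pool.Agent.V11210.G2.A2
  by_cases h2 : p = 2
  · rw [if_neg (fun h => h.1 h2), dif_neg (fun h => h.2 h2)]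
  · rw [dif_pos ⟨hp, h2⟩]
    by_cases h3 : (Pool.Agent.Y57.FD.HM.pol p (D := 2 * 2 + 1) (fun i => ((red p m i : ℕ) : ZMod p))).Separable
    · have h4 : Smooth p m := ⟨h2, by rw [pol_eq] at h3; exact h3⟩
      rw [if_pos h4, if_pos h3, points₂_eq p h2, ← e1]
      unfold a₁
      rw [if_pos h4, div_pow, Real.sq_sqrt hp0.le]
      field_simp
      ring
    · have h4 : ¬ Smooth p m := fun h => h3 (by rw [pol_eq]; exact h.2)
      rw [if_neg h4, if_neg h3]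

lemma a₁_congr (p : ℕ) (hp : p.Prime) (m m' : Fin 5 → ℤ) (h : ∀ l, (p : ℤ) ∣ m l - m' l) : a₁ p m = a₁ p m' := by
  rw [a₁_eq p hp, a₁_eq p hp, red_congr p m m' h]

lemma a₂_congr (p : ℕ) (hp : p.Prime) (m m' : Fin 5 → ℤ) (h : ∀ l, (p : ℤ) ∣ m l - m' l) : a₂ p m = a₂ p m' := by
  rw [a₂_eq p hp, a₂_eq p hp, red_congr p m m' h]

lemma a₁_le (p : ℕ) (hp : p.Prime) (m : Fin 5 → ℤ) : |a₁ p m| ≤ 4 := by
  rw [a₁_eq p hp]
  exact (Pool.Agent.Y57.FD.HM.tr_le 2 p _).trans (by norm_num)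

lemma a₂_le (p : ℕ) (hp : p.Prime) (m : Fin 5 → ℤ) : |a₂ p m| ≤ 10 := by
  rw [a₂_eq p hp]
  exact (Pool.Agent.V11210.G2.A2_le 2 p _).trans (by norm_num)

lemma red_nat (p : ℕ) (n : Fin 5 → ℕ) (hn : ∀ i, n i < p) : red p (fun l => (n l : ℤ)) = n := by
  funext i
  unfold red
  have h1 : ((n i : ℤ) % (p : ℤ)) = ((n i : ℕ) : ℤ) := by
    rw [← Int.natCast_mod, Nat.mod_eq_of_lt (hn i)]
  rw [h1, Int.toNat_natCast]

/-- the means of the monomials -/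
lemma mean_mono (i j : ℕ) (hij : i + 2 * j ≤ 5 ∨ (i ≤ 7 ∧ j = 0)) : ∃ C : ℝ, 0 ≤ C ∧ ∀ p : ℕ, p.Prime →
    |Pool.Agent.N794.CG.meanD p 5 (fun m => a₁ p m ^ i * a₂ p m ^ j) - moment i j| ≤ C / p := by
  obtain ⟨C, hC0, hC⟩ := Pool.Agent.V11210.G2.mean_joint 2 i j (cond_eq _ _ hij)
  refine ⟨C, hC0, fun p hp => ?_⟩
  rw [moment_eq _ _ hij, Pool.Agent.N794.CG.meanD_eq]
  refine le_of_eq_of_le ?_ (hC p hp)
  congr 2
  unfold Pool.Agent.TH894.NE.mean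
  congr 1
  apply sum_congr rfl
  intro n hn
  have hn' : ∀ i, n i < p := fun i => mem_range.1 (Fintype.mem_piFinset.1 hn i)
  rw [a₁_eq p hp, a₂_eq p hp, red_nat p n hn']

end Pool.Agent.J6H92.Thin
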